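import Pool.Agent.Run7.h354.BE.Stm2

/-!
# Piece IDEM: idempotents of bounded complexes split
-/

set_option autoImplicit false

open CategoryTheory CategoryTheory.Limits Pretriangulated Triangulated

namespace Run7.h639.BE.IDEM

open Run7.h354.BE

universe w v u

section tri

variable {C : Type u} [Category.{v} C]

/-- split idempotents -/
def Spl {X : C} (e : X ⟶ X) : Prop :=
  ∃ (Y : C) (i : Y ⟶ X) (r : X ⟶ Y), i ≫ r = 𝟙 Y ∧ r ≫ i = e

theorem Spl.of_iso {X X' : C} (k : X ≅ X') (e : X' ⟶ X') (h : Spl (k.hom ≫ e ≫ k.inv)) : Spl e := by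
  obtain ⟨Y, i, r, h1, h2⟩ := h
  refine ⟨Y, i ≫ k.hom, k.inv ≫ r, ?_, ?_⟩
  · simp [h1]
  · have : (k.inv ≫ r) ≫ i ≫ k.hom = k.inv ≫ (r ≫ i) ≫ k.hom := by simp
    rw [this, h2]
    simp

variable [Preadditive C] [HasZeroObject C]
  [HasShift C ℤ] [∀ n : ℤ, (shiftFunctor C n).Additive] [Pretriangulated C]

omit [HasZeroObject C] [∀ n : ℤ, (shiftFunctor C n).Additive] [Pretriangulated C] in
theorem Spl.of_isZero {X : C} (h : IsZero X) (e : X ⟶ X) : Spl e :=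
  ⟨X, 𝟙 X, 𝟙 X, Category.comp_id _, h.eq_of_src _ _⟩

theorem Spl.of_near {X : C} {e p : X ⟶ X} (he : e ≫ e = e) (hp : Spl p)
    (h : (e - p) ≫ (e - p) = 0) : Spl e := by
  obtain ⟨Y, i, r, h1, h2⟩ := hp
  have hpp : p ≫ p = p := by
    rw [← h2, Category.assoc, reassoc_of% h1]
  have h3 : e + p = e ≫ p + p ≫ e := by
    have : (e - p) ≫ (e - p) = e ≫ e - e ≫ p - (p ≫ e - p ≫ p) := by
      rw [Preadditive.sub_comp, Preadditive.comp_sub, Preadditive.comp_sub]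
    rw [this, he, hpp] at h
    have h4 : e + p - (e ≫ p + p ≫ e) = 0 := by rw [← h]; abel
    exact sub_eq_zero.1 h4
  have h5 : e ≫ p ≫ e = e := by
    have : e ≫ (e + p) = e ≫ (e ≫ p + p ≫ e) := by rw [h3]
    rw [Preadditive.comp_add, Preadditive.comp_add, he, ← Category.assoc e e p, he] at this
    exact (add_left_cancel ((add_comm _ _).trans this)).symm
  have h6 : p ≫ e ≫ p = p := by
    have : p ≫ (e + p) = p ≫ (e ≫ p + p ≫ e) := by rw [h3]
    rw [Preadditive.comp_add, Preadditive.comp_add, hpp, ← Category.assoc p p e, hpp] at this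
    exact (add_left_cancel (this.trans (add_comm _ _))).symm
  refine ⟨Y, i ≫ e, e ≫ r, ?_, ?_⟩
  · have e1 : i = i ≫ p := by rw [← h2, reassoc_of% h1]
    have e2 : r = p ≫ r := by rw [← h2, Category.assoc, h1, Category.comp_id]
    have : (i ≫ e) ≫ e ≫ r = (i ≫ p) ≫ e ≫ p ≫ r := by
      rw [← e1, ← e2, Category.assoc, ← Category.assoc e e r, he]
    rw [this, Category.assoc, ← Category.assoc e p r, ← Category.assoc p (e ≫ p) r, h6, ← e2, h1]
  · have : (e ≫ r) ≫ i ≫ e = e ≫ (r ≫ i) ≫ e := by simp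
    rw [this, h2, h5]

theorem spl_of_triangle (T : Triangle C) (hT : T ∈ distTriang C) (φ : T ⟶ T)
    (h2 : φ.hom₂ ≫ φ.hom₂ = φ.hom₂) (h1 : Spl φ.hom₁) (h3 : Spl φ.hom₃) : Spl φ.hom₂ := by
  obtain ⟨A₁, i₁, r₁, a1, a2⟩ := h1
  obtain ⟨A₃, i₃, r₃, c1, c2⟩ := h3
  obtain ⟨A₂, f, g, hU⟩ := distinguished_cocone_triangle₂ (i₃ ≫ T.mor₃ ≫ r₁⟦1⟧')
  have k1 : r₁ ≫ i₁ ≫ r₁ = r₁ := by rw [a1, Category.comp_id]
  have k2 : i₁ ≫ φ.hom₁ = i₁ := by rw [← a2, reassoc_of% a1]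
  have k3 : i₃ ≫ φ.hom₃ = i₃ := by rw [← c2, reassoc_of% c1]
  have k4 : φ.hom₁ ≫ r₁ = r₁ := by rw [← a2, Category.assoc, a1, Category.comp_id]
  have k5 : φ.hom₃ ≫ r₃ = r₃ := by rw [← c2, Category.assoc, c1, Category.comp_id]
  obtain ⟨α, α1, α2⟩ : ∃ α : A₂ ⟶ T.obj₂, f ≫ α = i₁ ≫ T.mor₁ ∧ g ≫ i₃ = α ≫ T.mor₂ :=
    complete_distinguished_triangle_morphism₂
    (Triangle.mk f g (i₃ ≫ T.mor₃ ≫ r₁⟦1⟧')) T hU hT i₁ i₃ (by
      show (i₃ ≫ T.mor₃ ≫ r₁⟦1⟧') ≫ i₁⟦1⟧' = i₃ ≫ T.mor₃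
      rw [Category.assoc, Category.assoc, ← Functor.map_comp, a2, φ.comm₃, reassoc_of% k3])
  obtain ⟨β, β1, β2⟩ : ∃ β : T.obj₂ ⟶ A₂, T.mor₁ ≫ β = r₁ ≫ f ∧ T.mor₂ ≫ r₃ = β ≫ g :=
    complete_distinguished_triangle_morphism₂
    T (Triangle.mk f g (i₃ ≫ T.mor₃ ≫ r₁⟦1⟧')) hT hU r₁ r₃ (by
      show T.mor₃ ≫ r₁⟦1⟧' = r₃ ≫ i₃ ≫ T.mor₃ ≫ r₁⟦1⟧'
      rw [reassoc_of% c2, ← Category.assoc φ.hom₃, ← φ.comm₃, Category.assoc, ← Functor.map_comp,
        k4])
  -- the composite is an isomorphism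
  have e1 : f ≫ (α ≫ β) = f := by
    rw [reassoc_of% α1, β1, reassoc_of% a1]
  have e2 : (α ≫ β) ≫ g = g := by
    rw [Category.assoc, ← β2, ← Category.assoc, ← α2, Category.assoc, c1, Category.comp_id]
  let U := Triangle.mk f g (i₃ ≫ T.mor₃ ≫ r₁⟦1⟧')
  let ψ : U ⟶ U :=
    { hom₁ := 𝟙 _
      hom₂ := α ≫ β
      hom₃ := 𝟙 _
      comm₁ := by
        show f ≫ (α ≫ β) = 𝟙 _ ≫ f
        rw [e1, Category.id_comp]
      comm₂ := by
        show g ≫ 𝟙 _ = (α ≫ β) ≫ g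
        rw [e2, Category.comp_id]
      comm₃ := by
        show (i₃ ≫ T.mor₃ ≫ r₁⟦1⟧') ≫ (𝟙 A₁)⟦1⟧' = 𝟙 A₃ ≫ (i₃ ≫ T.mor₃ ≫ r₁⟦1⟧')
        rw [CategoryTheory.Functor.map_id, Category.comp_id, Category.id_comp] }
  have hiso : IsIso (α ≫ β) := isIso₂_of_isIso₁₃ ψ hU hU (by
    show IsIso (𝟙 _); infer_instance) (by show IsIso (𝟙 _); infer_instance)
  have e3 : f ≫ inv (α ≫ β) = f := by
    rw [IsIso.comp_inv_eq, e1]
  have e4 : inv (α ≫ β) ≫ g = g := by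
    rw [IsIso.inv_comp_eq, e2]
  refine Spl.of_near h2 (p := (β ≫ inv (α ≫ β)) ≫ α) ⟨A₂, α, β ≫ inv (α ≫ β), ?_, rfl⟩ ?_
  · rw [← Category.assoc, IsIso.hom_inv_id]
  · have d1 : T.mor₁ ≫ (φ.hom₂ - (β ≫ inv (α ≫ β)) ≫ α) = 0 := by
      rw [Preadditive.comp_sub, φ.comm₁, Category.assoc, reassoc_of% β1, reassoc_of% e3, α1,
        reassoc_of% a2, sub_self]
    have d2 : (φ.hom₂ - (β ≫ inv (α ≫ β)) ≫ α) ≫ T.mor₂ = 0 := by
      rw [Preadditive.sub_comp, ← φ.comm₂, Category.assoc, Category.assoc, ← α2,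
        reassoc_of% e4, ← Category.assoc, ← β2, Category.assoc, c2, sub_self]
    obtain ⟨k, hk⟩ := Triangle.yoneda_exact₂ T hT _ d1
    nth_rewrite 2 [hk]
    rw [← Category.assoc, d2, zero_comp]

/-- bounded objects for a t-structure -/
theorem spl_bounded [IsTriangulated C] (t : TStructure C) (hs : ∀ (n : ℤ) (X : C), t.IsGE X n → t.IsLE X n →
    ∀ e : X ⟶ X, e ≫ e = e → Spl e) (n : ℤ) (k : ℕ) :
    ∀ X : C, t.IsGE X n → t.IsLE X (n + k) → ∀ e : X ⟶ X, e ≫ e = e → Spl e := by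
  induction k with
  | zero =>
    intro X h1 h2 e he
    exact hs n X h1 (by simpa using h2) e he
  | succ k ih =>
    intro X h1 h2 e he
    have key := spl_of_triangle ((t.triangleLTGE (n + k + 1)).obj X)
      (t.triangleLTGE_distinguished _ X) ((t.triangleLTGE (n + k + 1)).map e)
    refine key ?_ ?_ ?_
    · exact he
    · refine ih ((t.truncLT (n + k + 1)).obj X) inferInstance inferInstance
        ((t.truncLT (n + k + 1)).map e) ?_
      rw [← Functor.map_comp, he]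
    · refine hs (n + k + 1) ((t.truncGE (n + k + 1)).obj X) inferInstance ?_
        ((t.truncGE (n + k + 1)).map e) ?_
      · have : t.IsLE X (n + k + 1) := by
          have h : n + ((k + 1 : ℕ) : ℤ) = n + k + 1 := by push_cast; ring
          rwa [h] at h2
        infer_instance
      · rw [← Functor.map_comp, he]

end tri

/-- PIECE IDEM -/
theorem p_IDEM : S_IDEM.{w, v, u} := by
  intro A _ _ _ X m n hm hn e he
  have hs : ∀ (n : ℤ) (X : DerivedCategory A), X.IsGE n → X.IsLE n → ∀ e : X ⟶ X, e ≫ e = e →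
      Spl e := by
    intro n X h1 h2 e he
    obtain ⟨Y, ⟨k⟩⟩ := X.exists_iso_singleFunctor_obj_of_isGE_of_isLE n
    refine Spl.of_iso k.symm e ?_
    obtain ⟨f, hf⟩ := (DerivedCategory.singleFunctor A n).map_surjective (k.inv ≫ e ≫ k.hom)
    have hff : f ≫ f = f := by
      apply (DerivedCategory.singleFunctor A n).map_injective
      rw [Functor.map_comp, hf]
      simp only [Category.assoc, Iso.hom_inv_id_assoc, reassoc_of% he]
    obtain ⟨Z, i, r, h3, h4⟩ := IsIdempotentComplete.idempotents_split Y f hff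
    refine ⟨(DerivedCategory.singleFunctor A n).obj Z, (DerivedCategory.singleFunctor A n).map i,
      (DerivedCategory.singleFunctor A n).map r, ?_, ?_⟩
    · rw [← Functor.map_comp, h3, CategoryTheory.Functor.map_id]
    · rw [← Functor.map_comp, h4, hf]
      rfl
  by_cases hmn : m < n
  · exact Spl.of_isZero (DerivedCategory.TStructure.t.isZero X m n hmn) e
  · obtain ⟨k, hk⟩ := Int.eq_ofNat_of_zero_le (show 0 ≤ m - n by omega)
    refine spl_bounded DerivedCategory.TStructure.t hs n k X hn ?_ e he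
    rw [← hk]
    have : n + (m - n) = m := by ring
    rw [this]
    exact hm

end Run7.h639.BE.IDEM
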