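import Pool.Agent.Run7.h639.BE.KEX1

/-!
# Piece KEX: exactness of the Koszul and Hilbert-Burch complexes, main part
-/

set_option autoImplicit false
set_option linter.unusedSectionVars false

open CategoryTheory CategoryTheory.Limits Complex ZeroObject

namespace Run7.h639.BE.KEX

open Run7.h354.BE

universe v u

section koszul

variable {A : Type u} [Category.{v} A] [Abelian A] [Linear ℂ A] {τ : ℂ} {E : TA τ A}
  [hadd : ∀ a, (E.Φ.obj a).Additive]

variable {a γ δ : Gam} {f g : ℂ → ℂ} (hf : f ∈ V τ γ) (hg : g ∈ V τ δ) (hf1 : f ∈ V τ (a + γ - a))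
  (hg1 : g ∈ V τ (a + δ - a)) (hf2 : f ∈ V τ (a + γ + δ - (a + δ)))
  (hg2 : g ∈ V τ (a + γ + δ - (a + γ))) (hf0 : f ∈ V τ (γ - 0)) (hg0 : g ∈ V τ (δ - 0)) (G : A)

theorem kos_f (hlin : Lin E) :
    ∃ (s : (E.Φ.obj ⟨0⟩).obj ((E.Φ.obj ⟨a + γ⟩).obj G ⊞ (E.Φ.obj ⟨a + δ⟩).obj G) ⟶
        (E.Φ.obj ⟨γ⟩).obj ((E.Φ.obj ⟨a⟩).obj G))
      (t : (E.Φ.obj ⟨0⟩).obj ((E.Φ.obj ⟨a + γ + δ⟩).obj G) ⟶
        (E.Φ.obj ⟨γ⟩).obj ((E.Φ.obj ⟨a + γ⟩).obj G ⊞ (E.Φ.obj ⟨a + δ⟩).obj G)),
      (E.Φ.obj ⟨0⟩).map (biprod.lift (ac E f hf1 G) (ac E g hg1 G)) ≫ s =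
        (E.Φ.map (gm f hf0)).app _ ∧
      s ≫ (E.Φ.obj ⟨γ⟩).map (biprod.lift (ac E f hf1 G) (ac E g hg1 G)) +
        (E.Φ.obj ⟨0⟩).map (biprod.desc (ac E g hg2 G) (-(ac E f hf2 G))) ≫ t =
        (E.Φ.map (gm f hf0)).app _ ∧
      t ≫ (E.Φ.obj ⟨γ⟩).map (biprod.desc (ac E g hg2 G) (-(ac E f hf2 G))) =
        (E.Φ.map (gm f hf0)).app _ := by
  have h1 : (1 : ℂ → ℂ) ∈ V τ (a + γ - (a + γ + 0)) := by
    rw [add_zero, sub_self]; exact V_one
  have h2 : (-1 : ℂ → ℂ) ∈ V τ (a + δ + γ - (a + γ + δ + 0)) := by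
    rw [show a + δ + γ - (a + γ + δ + 0) = 0 by abel]; exact neg_mem V_one
  refine ⟨(E.Φ.obj ⟨0⟩).map biprod.fst ≫ sg E 1 h1 G,
    sg E (-1) h2 G ≫ (E.Φ.obj ⟨γ⟩).map biprod.inr, ?_, ?_, ?_⟩
  · (simp only [Preadditive.comp_add, Preadditive.add_comp, Preadditive.comp_neg,
        Preadditive.neg_comp, Category.assoc, inl_fst', inl_snd', inr_fst', inr_snd', lift_fst,
        lift_snd, lift_fst', lift_snd', inl_desc, inr_desc, inl_desc', inr_desc', inl_fst,
        inl_snd, inr_fst, inr_snd, comp_zero, zero_comp, add_zero, zero_add, Functor.map_neg,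
        Functor.map_zero, nat_inl_fst, nat_inl_snd, nat_inr_fst, nat_inr_snd, nat_inl_fst',
        nat_inl_snd', nat_inr_fst', nat_inr_snd', map_sg', sg_map', Category.comp_id,
        Category.id_comp, neg_zero, neg_neg, app_eq];
     (try simp only [sg_eq hlin, ← map_neg, ← map_add]);
     first
     | done
     | (refine sgL_congr hlin _ _ _ ?_; funext z; simp; done)
     | (refine sgL_congr hlin _ _ _ ?_; funext z; simp; ring)
     | (refine sgL_zero hlin _ _ ?_; funext z; simp; done)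
     | (refine sgL_zero hlin _ _ ?_; funext z; simp; ring))
  · refine ext_from _ (ext_to _ ?_ ?_) (ext_to _ ?_ ?_)
    all_goals (simp only [Preadditive.comp_add, Preadditive.add_comp, Preadditive.comp_neg,
                  Preadditive.neg_comp, Category.assoc, inl_fst', inl_snd', inr_fst', inr_snd',
                  lift_fst, lift_snd, lift_fst', lift_snd', inl_desc, inr_desc, inl_desc',
                  inr_desc', inl_fst, inl_snd, inr_fst, inr_snd, comp_zero, zero_comp, add_zero,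
                  zero_add, Functor.map_neg, Functor.map_zero, nat_inl_fst, nat_inl_snd,
                  nat_inr_fst, nat_inr_snd, nat_inl_fst', nat_inl_snd', nat_inr_fst',
                  nat_inr_snd', map_sg', sg_map', Category.comp_id, Category.id_comp, neg_zero,
                  neg_neg, app_eq];
               (try simp only [sg_eq hlin, ← map_neg, ← map_add]);
               first
               | done
               | (refine sgL_congr hlin _ _ _ ?_; funext z; simp; done)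
               | (refine sgL_congr hlin _ _ _ ?_; funext z; simp; ring)
               | (refine sgL_zero hlin _ _ ?_; funext z; simp; done)
               | (refine sgL_zero hlin _ _ ?_; funext z; simp; ring))
  · (simp only [Preadditive.comp_add, Preadditive.add_comp, Preadditive.comp_neg,
        Preadditive.neg_comp, Category.assoc, inl_fst', inl_snd', inr_fst', inr_snd', lift_fst,
        lift_snd, lift_fst', lift_snd', inl_desc, inr_desc, inl_desc', inr_desc', inl_fst,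
        inl_snd, inr_fst, inr_snd, comp_zero, zero_comp, add_zero, zero_add, Functor.map_neg,
        Functor.map_zero, nat_inl_fst, nat_inl_snd, nat_inr_fst, nat_inr_snd, nat_inl_fst',
        nat_inl_snd', nat_inr_fst', nat_inr_snd', map_sg', sg_map', Category.comp_id,
        Category.id_comp, neg_zero, neg_neg, app_eq];
     (try simp only [sg_eq hlin, ← map_neg, ← map_add]);
     first
     | done
     | (refine sgL_congr hlin _ _ _ ?_; funext z; simp; done)
     | (refine sgL_congr hlin _ _ _ ?_; funext z; simp; ring)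
     | (refine sgL_zero hlin _ _ ?_; funext z; simp; done)
     | (refine sgL_zero hlin _ _ ?_; funext z; simp; ring))

theorem kos_g (hlin : Lin E) :
    ∃ (s : (E.Φ.obj ⟨0⟩).obj ((E.Φ.obj ⟨a + γ⟩).obj G ⊞ (E.Φ.obj ⟨a + δ⟩).obj G) ⟶
        (E.Φ.obj ⟨δ⟩).obj ((E.Φ.obj ⟨a⟩).obj G))
      (t : (E.Φ.obj ⟨0⟩).obj ((E.Φ.obj ⟨a + γ + δ⟩).obj G) ⟶
        (E.Φ.obj ⟨δ⟩).obj ((E.Φ.obj ⟨a + γ⟩).obj G ⊞ (E.Φ.obj ⟨a + δ⟩).obj G)),
      (E.Φ.obj ⟨0⟩).map (biprod.lift (ac E f hf1 G) (ac E g hg1 G)) ≫ s =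
        (E.Φ.map (gm g hg0)).app _ ∧
      s ≫ (E.Φ.obj ⟨δ⟩).map (biprod.lift (ac E f hf1 G) (ac E g hg1 G)) +
        (E.Φ.obj ⟨0⟩).map (biprod.desc (ac E g hg2 G) (-(ac E f hf2 G))) ≫ t =
        (E.Φ.map (gm g hg0)).app _ ∧
      t ≫ (E.Φ.obj ⟨δ⟩).map (biprod.desc (ac E g hg2 G) (-(ac E f hf2 G))) =
        (E.Φ.map (gm g hg0)).app _ := by
  have h1 : (1 : ℂ → ℂ) ∈ V τ (a + δ - (a + δ + 0)) := by
    rw [add_zero, sub_self]; exact V_one
  have h2 : (1 : ℂ → ℂ) ∈ V τ (a + γ + δ - (a + γ + δ + 0)) := by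
    rw [add_zero, sub_self]; exact V_one
  refine ⟨(E.Φ.obj ⟨0⟩).map biprod.snd ≫ sg E 1 h1 G,
    sg E 1 h2 G ≫ (E.Φ.obj ⟨δ⟩).map biprod.inl, ?_, ?_, ?_⟩
  · (simp only [Preadditive.comp_add, Preadditive.add_comp, Preadditive.comp_neg,
        Preadditive.neg_comp, Category.assoc, inl_fst', inl_snd', inr_fst', inr_snd', lift_fst,
        lift_snd, lift_fst', lift_snd', inl_desc, inr_desc, inl_desc', inr_desc', inl_fst,
        inl_snd, inr_fst, inr_snd, comp_zero, zero_comp, add_zero, zero_add, Functor.map_neg,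
        Functor.map_zero, nat_inl_fst, nat_inl_snd, nat_inr_fst, nat_inr_snd, nat_inl_fst',
        nat_inl_snd', nat_inr_fst', nat_inr_snd', map_sg', sg_map', Category.comp_id,
        Category.id_comp, neg_zero, neg_neg, app_eq];
     (try simp only [sg_eq hlin, ← map_neg, ← map_add]);
     first
     | done
     | (refine sgL_congr hlin _ _ _ ?_; funext z; simp; done)
     | (refine sgL_congr hlin _ _ _ ?_; funext z; simp; ring)
     | (refine sgL_zero hlin _ _ ?_; funext z; simp; done)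
     | (refine sgL_zero hlin _ _ ?_; funext z; simp; ring))
  · refine ext_from _ (ext_to _ ?_ ?_) (ext_to _ ?_ ?_)
    all_goals (simp only [Preadditive.comp_add, Preadditive.add_comp, Preadditive.comp_neg,
                  Preadditive.neg_comp, Category.assoc, inl_fst', inl_snd', inr_fst', inr_snd',
                  lift_fst, lift_snd, lift_fst', lift_snd', inl_desc, inr_desc, inl_desc',
                  inr_desc', inl_fst, inl_snd, inr_fst, inr_snd, comp_zero, zero_comp, add_zero,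
                  zero_add, Functor.map_neg, Functor.map_zero, nat_inl_fst, nat_inl_snd,
                  nat_inr_fst, nat_inr_snd, nat_inl_fst', nat_inl_snd', nat_inr_fst',
                  nat_inr_snd', map_sg', sg_map', Category.comp_id, Category.id_comp, neg_zero,
                  neg_neg, app_eq];
               (try simp only [sg_eq hlin, ← map_neg, ← map_add]);
               first
               | done
               | (refine sgL_congr hlin _ _ _ ?_; funext z; simp; done)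
               | (refine sgL_congr hlin _ _ _ ?_; funext z; simp; ring)
               | (refine sgL_zero hlin _ _ ?_; funext z; simp; done)
               | (refine sgL_zero hlin _ _ ?_; funext z; simp; ring))
  · (simp only [Preadditive.comp_add, Preadditive.add_comp, Preadditive.comp_neg,
        Preadditive.neg_comp, Category.assoc, inl_fst', inl_snd', inr_fst', inr_snd', lift_fst,
        lift_snd, lift_fst', lift_snd', inl_desc, inr_desc, inl_desc', inr_desc', inl_fst,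
        inl_snd, inr_fst, inr_snd, comp_zero, zero_comp, add_zero, zero_add, Functor.map_neg,
        Functor.map_zero, nat_inl_fst, nat_inl_snd, nat_inr_fst, nat_inr_snd, nat_inl_fst',
        nat_inl_snd', nat_inr_fst', nat_inr_snd', map_sg', sg_map', Category.comp_id,
        Category.id_comp, neg_zero, neg_neg, app_eq];
     (try simp only [sg_eq hlin, ← map_neg, ← map_add]);
     first
     | done
     | (refine sgL_congr hlin _ _ _ ?_; funext z; simp; done)
     | (refine sgL_congr hlin _ _ _ ?_; funext z; simp; ring)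
     | (refine sgL_zero hlin _ _ ?_; funext z; simp; done)
     | (refine sgL_zero hlin _ _ ?_; funext z; simp; ring))

end koszul

section hb

variable {A : Type u} [Category.{v} A] [Abelian A] [Linear ℂ A] {τ : ℂ} (E : TA τ A)
  [hadd : ∀ a, (E.Φ.obj a).Additive]

/-- the first map of the Hilbert-Burch complex -/
noncomputable abbrev hd1 {a γ₁ γ₂ δ : Gam} {u₁ u₂ w₁ w₂ : ℂ → ℂ}
    (k1 : u₁ ∈ V τ (a - (a - γ₁))) (k2 : u₂ ∈ V τ (a - (a - γ₂)))
    (k3 : w₁ ∈ V τ (a + δ - γ₁ - γ₂ - (a - γ₁))) (k4 : w₂ ∈ V τ (a + δ - γ₁ - γ₂ - (a - γ₂)))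
    (G : A) := biprod.desc
        (biprod.lift (biprod.lift (ac E u₁ k1 G) (0 : _ ⟶ (E.Φ.obj ⟨a⟩).obj G)) (-(ac E w₁ k3 G)))
        (biprod.lift (biprod.lift (0 : _ ⟶ (E.Φ.obj ⟨a⟩).obj G) (ac E u₂ k2 G)) (-(ac E w₂ k4 G)))

/-- the second map of the Hilbert-Burch complex -/
noncomputable abbrev hd2 {a γ₁ γ₂ δ : Gam} {u₁ u₂ w₁ w₂ : ℂ → ℂ} (h1 : u₂ * w₁ ∈ V τ (a + δ - a))
    (h2 : u₁ * w₂ ∈ V τ (a + δ - a)) (h3 : u₁ * u₂ ∈ V τ (a + δ - (a + δ - γ₁ - γ₂))) (G : A) :=
  biprod.desc (biprod.desc (ac E (u₂ * w₁) h1 G) (ac E (u₁ * w₂) h2 G)) (ac E (u₁ * u₂) h3 G)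

/-- a contraction of multiplication by `p` -/
def Ctr {X₁ X₂ X₃ : A} (d₁ : X₁ ⟶ X₂) (d₂ : X₂ ⟶ X₃) {γ : Gam} (p : ℂ → ℂ)
    (hp : p ∈ V τ (γ - 0)) : Prop :=
  ∃ (s : (E.Φ.obj ⟨0⟩).obj X₂ ⟶ (E.Φ.obj ⟨γ⟩).obj X₁)
    (t : (E.Φ.obj ⟨0⟩).obj X₃ ⟶ (E.Φ.obj ⟨γ⟩).obj X₂),
    (E.Φ.obj ⟨0⟩).map d₁ ≫ s = (E.Φ.map (gm p hp)).app X₁ ∧
    s ≫ (E.Φ.obj ⟨γ⟩).map d₁ + (E.Φ.obj ⟨0⟩).map d₂ ≫ t = (E.Φ.map (gm p hp)).app X₂ ∧
    t ≫ (E.Φ.obj ⟨γ⟩).map d₂ = (E.Φ.map (gm p hp)).app X₃

variable {E}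
variable {a γ₁ γ₂ δ : Gam} {u₁ u₂ w₁ w₂ : ℂ → ℂ}
    (hu₁ : u₁ ∈ V τ γ₁) (hu₂ : u₂ ∈ V τ γ₂) (hw₁ : w₁ ∈ V τ (δ - γ₂)) (hw₂ : w₂ ∈ V τ (δ - γ₁))
    (h1 : u₂ * w₁ ∈ V τ (a + δ - a)) (h2 : u₁ * w₂ ∈ V τ (a + δ - a))
    (h3 : u₁ * u₂ ∈ V τ (a + δ - (a + δ - γ₁ - γ₂)))
    (k1 : u₁ ∈ V τ (a - (a - γ₁))) (k2 : u₂ ∈ V τ (a - (a - γ₂)))
    (k3 : w₁ ∈ V τ (a + δ - γ₁ - γ₂ - (a - γ₁))) (k4 : w₂ ∈ V τ (a + δ - γ₁ - γ₂ - (a - γ₂)))
    (G : A)

include hu₁ hu₂ hw₁ hw₂ in
theorem hb_p1 (hlin : Lin E) (hp : u₂ * w₁ ∈ V τ (δ - 0)) :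
    Ctr E (hd1 E k1 k2 k3 k4 G) (hd2 E h1 h2 h3 G) (u₂ * w₁) hp := by
  have m1 : -w₂ ∈ V τ (a - γ₁ + δ - (a + 0)) := by
    rw [show a - γ₁ + δ - (a + 0) = δ - γ₁ by abel]; exact neg_mem hw₂
  have m2 : w₁ ∈ V τ (a - γ₂ + δ - (a + 0)) := by
    rw [show a - γ₂ + δ - (a + 0) = δ - γ₂ by abel]; exact hw₁
  have m3 : -u₂ ∈ V τ (a - γ₁ + δ - (a + δ - γ₁ - γ₂ + 0)) := by
    rw [show a - γ₁ + δ - (a + δ - γ₁ - γ₂ + 0) = γ₂ by abel]; exact neg_mem hu₂
  have m4 : (1 : ℂ → ℂ) ∈ V τ (a + δ - (a + δ + 0)) := by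
    rw [add_zero, sub_self]; exact V_one
  refine ⟨(E.Φ.obj ⟨0⟩).map biprod.fst ≫ (E.Φ.obj ⟨0⟩).map biprod.snd ≫
      (sg E (-w₂) m1 G ≫ (E.Φ.obj ⟨δ⟩).map biprod.inl + sg E w₁ m2 G ≫ (E.Φ.obj ⟨δ⟩).map biprod.inr)
      + (E.Φ.obj ⟨0⟩).map biprod.snd ≫ sg E (-u₂) m3 G ≫ (E.Φ.obj ⟨δ⟩).map biprod.inl,
    sg E 1 m4 G ≫ (E.Φ.obj ⟨δ⟩).map biprod.inl ≫ (E.Φ.obj ⟨δ⟩).map biprod.inl, ?_, ?_, ?_⟩
  · refine ext_from _ (ext_to _ ?_ ?_) (ext_to _ ?_ ?_)
    all_goals (simp only [Preadditive.comp_add, Preadditive.add_comp, Preadditive.comp_neg,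
                  Preadditive.neg_comp, Category.assoc, inl_fst', inl_snd', inr_fst', inr_snd',
                  lift_fst, lift_snd, lift_fst', lift_snd', inl_desc, inr_desc, inl_desc',
                  inr_desc', inl_fst, inl_snd, inr_fst, inr_snd, comp_zero, zero_comp, add_zero,
                  zero_add, Functor.map_neg, Functor.map_zero, nat_inl_fst, nat_inl_snd,
                  nat_inr_fst, nat_inr_snd, nat_inl_fst', nat_inl_snd', nat_inr_fst',
                  nat_inr_snd', map_sg', sg_map', Category.comp_id, Category.id_comp, neg_zero,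
                  neg_neg, app_eq];
               (try simp only [sg_eq hlin, ← map_neg, ← map_add]);
               first
               | done
               | (refine sgL_congr hlin _ _ _ ?_; funext z; simp; done)
               | (refine sgL_congr hlin _ _ _ ?_; funext z; simp; ring)
               | (refine sgL_zero hlin _ _ ?_; funext z; simp; done)
               | (refine sgL_zero hlin _ _ ?_; funext z; simp; ring))
  · refine ext_from _ (ext_from _ (ext_to _ (ext_to _ ?_ ?_) ?_) (ext_to _ (ext_to _ ?_ ?_) ?_))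
      (ext_to _ (ext_to _ ?_ ?_) ?_)
    all_goals (simp only [Preadditive.comp_add, Preadditive.add_comp, Preadditive.comp_neg,
                  Preadditive.neg_comp, Category.assoc, inl_fst', inl_snd', inr_fst', inr_snd',
                  lift_fst, lift_snd, lift_fst', lift_snd', inl_desc, inr_desc, inl_desc',
                  inr_desc', inl_fst, inl_snd, inr_fst, inr_snd, comp_zero, zero_comp, add_zero,
                  zero_add, Functor.map_neg, Functor.map_zero, nat_inl_fst, nat_inl_snd,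
                  nat_inr_fst, nat_inr_snd, nat_inl_fst', nat_inl_snd', nat_inr_fst',
                  nat_inr_snd', map_sg', sg_map', Category.comp_id, Category.id_comp, neg_zero,
                  neg_neg, app_eq];
               (try simp only [sg_eq hlin, ← map_neg, ← map_add]);
               first
               | done
               | (refine sgL_congr hlin _ _ _ ?_; funext z; simp; done)
               | (refine sgL_congr hlin _ _ _ ?_; funext z; simp; ring)
               | (refine sgL_zero hlin _ _ ?_; funext z; simp; done)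
               | (refine sgL_zero hlin _ _ ?_; funext z; simp; ring))
  · (simp only [Preadditive.comp_add, Preadditive.add_comp, Preadditive.comp_neg,
        Preadditive.neg_comp, Category.assoc, inl_fst', inl_snd', inr_fst', inr_snd', lift_fst,
        lift_snd, lift_fst', lift_snd', inl_desc, inr_desc, inl_desc', inr_desc', inl_fst,
        inl_snd, inr_fst, inr_snd, comp_zero, zero_comp, add_zero, zero_add, Functor.map_neg,
        Functor.map_zero, nat_inl_fst, nat_inl_snd, nat_inr_fst, nat_inr_snd, nat_inl_fst',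
        nat_inl_snd', nat_inr_fst', nat_inr_snd', map_sg', sg_map', Category.comp_id,
        Category.id_comp, neg_zero, neg_neg, app_eq];
     (try simp only [sg_eq hlin, ← map_neg, ← map_add]);
     first
     | done
     | (refine sgL_congr hlin _ _ _ ?_; funext z; simp; done)
     | (refine sgL_congr hlin _ _ _ ?_; funext z; simp; ring)
     | (refine sgL_zero hlin _ _ ?_; funext z; simp; done)
     | (refine sgL_zero hlin _ _ ?_; funext z; simp; ring))

include hu₁ hu₂ hw₁ hw₂ in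
theorem hb_p2 (hlin : Lin E) (hp : u₁ * w₂ ∈ V τ (δ - 0)) :
    Ctr E (hd1 E k1 k2 k3 k4 G) (hd2 E h1 h2 h3 G) (u₁ * w₂) hp := by
  have m1 : w₂ ∈ V τ (a - γ₁ + δ - (a + 0)) := by
    rw [show a - γ₁ + δ - (a + 0) = δ - γ₁ by abel]; exact hw₂
  have m2 : -w₁ ∈ V τ (a - γ₂ + δ - (a + 0)) := by
    rw [show a - γ₂ + δ - (a + 0) = δ - γ₂ by abel]; exact neg_mem hw₁
  have m3 : -u₁ ∈ V τ (a - γ₂ + δ - (a + δ - γ₁ - γ₂ + 0)) := by
    rw [show a - γ₂ + δ - (a + δ - γ₁ - γ₂ + 0) = γ₁ by abel]; exact neg_mem hu₁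
  have m4 : (1 : ℂ → ℂ) ∈ V τ (a + δ - (a + δ + 0)) := by
    rw [add_zero, sub_self]; exact V_one
  refine ⟨(E.Φ.obj ⟨0⟩).map biprod.fst ≫ (E.Φ.obj ⟨0⟩).map biprod.fst ≫
      (sg E w₂ m1 G ≫ (E.Φ.obj ⟨δ⟩).map biprod.inl + sg E (-w₁) m2 G ≫ (E.Φ.obj ⟨δ⟩).map biprod.inr)
      + (E.Φ.obj ⟨0⟩).map biprod.snd ≫ sg E (-u₁) m3 G ≫ (E.Φ.obj ⟨δ⟩).map biprod.inr,
    sg E 1 m4 G ≫ (E.Φ.obj ⟨δ⟩).map biprod.inr ≫ (E.Φ.obj ⟨δ⟩).map biprod.inl, ?_, ?_, ?_⟩
  · refine ext_from _ (ext_to _ ?_ ?_) (ext_to _ ?_ ?_)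
    all_goals (simp only [Preadditive.comp_add, Preadditive.add_comp, Preadditive.comp_neg,
                  Preadditive.neg_comp, Category.assoc, inl_fst', inl_snd', inr_fst', inr_snd',
                  lift_fst, lift_snd, lift_fst', lift_snd', inl_desc, inr_desc, inl_desc',
                  inr_desc', inl_fst, inl_snd, inr_fst, inr_snd, comp_zero, zero_comp, add_zero,
                  zero_add, Functor.map_neg, Functor.map_zero, nat_inl_fst, nat_inl_snd,
                  nat_inr_fst, nat_inr_snd, nat_inl_fst', nat_inl_snd', nat_inr_fst',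
                  nat_inr_snd', map_sg', sg_map', Category.comp_id, Category.id_comp, neg_zero,
                  neg_neg, app_eq];
               (try simp only [sg_eq hlin, ← map_neg, ← map_add]);
               first
               | done
               | (refine sgL_congr hlin _ _ _ ?_; funext z; simp; done)
               | (refine sgL_congr hlin _ _ _ ?_; funext z; simp; ring)
               | (refine sgL_zero hlin _ _ ?_; funext z; simp; done)
               | (refine sgL_zero hlin _ _ ?_; funext z; simp; ring))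
  · refine ext_from _ (ext_from _ (ext_to _ (ext_to _ ?_ ?_) ?_) (ext_to _ (ext_to _ ?_ ?_) ?_))
      (ext_to _ (ext_to _ ?_ ?_) ?_)
    all_goals (simp only [Preadditive.comp_add, Preadditive.add_comp, Preadditive.comp_neg,
                  Preadditive.neg_comp, Category.assoc, inl_fst', inl_snd', inr_fst', inr_snd',
                  lift_fst, lift_snd, lift_fst', lift_snd', inl_desc, inr_desc, inl_desc',
                  inr_desc', inl_fst, inl_snd, inr_fst, inr_snd, comp_zero, zero_comp, add_zero,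
                  zero_add, Functor.map_neg, Functor.map_zero, nat_inl_fst, nat_inl_snd,
                  nat_inr_fst, nat_inr_snd, nat_inl_fst', nat_inl_snd', nat_inr_fst',
                  nat_inr_snd', map_sg', sg_map', Category.comp_id, Category.id_comp, neg_zero,
                  neg_neg, app_eq];
               (try simp only [sg_eq hlin, ← map_neg, ← map_add]);
               first
               | done
               | (refine sgL_congr hlin _ _ _ ?_; funext z; simp; done)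
               | (refine sgL_congr hlin _ _ _ ?_; funext z; simp; ring)
               | (refine sgL_zero hlin _ _ ?_; funext z; simp; done)
               | (refine sgL_zero hlin _ _ ?_; funext z; simp; ring))
  · (simp only [Preadditive.comp_add, Preadditive.add_comp, Preadditive.comp_neg,
        Preadditive.neg_comp, Category.assoc, inl_fst', inl_snd', inr_fst', inr_snd', lift_fst,
        lift_snd, lift_fst', lift_snd', inl_desc, inr_desc, inl_desc', inr_desc', inl_fst,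
        inl_snd, inr_fst, inr_snd, comp_zero, zero_comp, add_zero, zero_add, Functor.map_neg,
        Functor.map_zero, nat_inl_fst, nat_inl_snd, nat_inr_fst, nat_inr_snd, nat_inl_fst',
        nat_inl_snd', nat_inr_fst', nat_inr_snd', map_sg', sg_map', Category.comp_id,
        Category.id_comp, neg_zero, neg_neg, app_eq];
     (try simp only [sg_eq hlin, ← map_neg, ← map_add]);
     first
     | done
     | (refine sgL_congr hlin _ _ _ ?_; funext z; simp; done)
     | (refine sgL_congr hlin _ _ _ ?_; funext z; simp; ring)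
     | (refine sgL_zero hlin _ _ ?_; funext z; simp; done)
     | (refine sgL_zero hlin _ _ ?_; funext z; simp; ring))

include hu₁ hu₂ hw₁ hw₂ in
theorem hb_p3 (hlin : Lin E) (hp : u₁ * u₂ ∈ V τ (γ₁ + γ₂ - 0)) :
    Ctr E (hd1 E k1 k2 k3 k4 G) (hd2 E h1 h2 h3 G) (u₁ * u₂) hp := by
  have m1 : u₂ ∈ V τ (a - γ₁ + (γ₁ + γ₂) - (a + 0)) := by
    rw [show a - γ₁ + (γ₁ + γ₂) - (a + 0) = γ₂ by abel]; exact hu₂
  have m2 : u₁ ∈ V τ (a - γ₂ + (γ₁ + γ₂) - (a + 0)) := by
    rw [show a - γ₂ + (γ₁ + γ₂) - (a + 0) = γ₁ by abel]; exact hu₁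
  have m4 : (1 : ℂ → ℂ) ∈ V τ (a + δ - γ₁ - γ₂ + (γ₁ + γ₂) - (a + δ + 0)) := by
    rw [show a + δ - γ₁ - γ₂ + (γ₁ + γ₂) - (a + δ + 0) = 0 by abel]; exact V_one
  refine ⟨(E.Φ.obj ⟨0⟩).map biprod.fst ≫ (E.Φ.obj ⟨0⟩).map biprod.fst ≫
      sg E u₂ m1 G ≫ (E.Φ.obj ⟨γ₁ + γ₂⟩).map biprod.inl +
      (E.Φ.obj ⟨0⟩).map biprod.fst ≫ (E.Φ.obj ⟨0⟩).map biprod.snd ≫
      sg E u₁ m2 G ≫ (E.Φ.obj ⟨γ₁ + γ₂⟩).map biprod.inr,
    sg E 1 m4 G ≫ (E.Φ.obj ⟨γ₁ + γ₂⟩).map biprod.inr, ?_, ?_, ?_⟩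
  · refine ext_from _ (ext_to _ ?_ ?_) (ext_to _ ?_ ?_)
    all_goals (simp only [Preadditive.comp_add, Preadditive.add_comp, Preadditive.comp_neg,
                  Preadditive.neg_comp, Category.assoc, inl_fst', inl_snd', inr_fst', inr_snd',
                  lift_fst, lift_snd, lift_fst', lift_snd', inl_desc, inr_desc, inl_desc',
                  inr_desc', inl_fst, inl_snd, inr_fst, inr_snd, comp_zero, zero_comp, add_zero,
                  zero_add, Functor.map_neg, Functor.map_zero, nat_inl_fst, nat_inl_snd,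
                  nat_inr_fst, nat_inr_snd, nat_inl_fst', nat_inl_snd', nat_inr_fst',
                  nat_inr_snd', map_sg', sg_map', Category.comp_id, Category.id_comp, neg_zero,
                  neg_neg, app_eq];
               (try simp only [sg_eq hlin, ← map_neg, ← map_add]);
               first
               | done
               | (refine sgL_congr hlin _ _ _ ?_; funext z; simp; done)
               | (refine sgL_congr hlin _ _ _ ?_; funext z; simp; ring)
               | (refine sgL_zero hlin _ _ ?_; funext z; simp; done)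
               | (refine sgL_zero hlin _ _ ?_; funext z; simp; ring))
  · refine ext_from _ (ext_from _ (ext_to _ (ext_to _ ?_ ?_) ?_) (ext_to _ (ext_to _ ?_ ?_) ?_))
      (ext_to _ (ext_to _ ?_ ?_) ?_)
    all_goals (simp only [Preadditive.comp_add, Preadditive.add_comp, Preadditive.comp_neg,
                  Preadditive.neg_comp, Category.assoc, inl_fst', inl_snd', inr_fst', inr_snd',
                  lift_fst, lift_snd, lift_fst', lift_snd', inl_desc, inr_desc, inl_desc',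
                  inr_desc', inl_fst, inl_snd, inr_fst, inr_snd, comp_zero, zero_comp, add_zero,
                  zero_add, Functor.map_neg, Functor.map_zero, nat_inl_fst, nat_inl_snd,
                  nat_inr_fst, nat_inr_snd, nat_inl_fst', nat_inl_snd', nat_inr_fst',
                  nat_inr_snd', map_sg', sg_map', Category.comp_id, Category.id_comp, neg_zero,
                  neg_neg, app_eq];
               (try simp only [sg_eq hlin, ← map_neg, ← map_add]);
               first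
               | done
               | (refine sgL_congr hlin _ _ _ ?_; funext z; simp; done)
               | (refine sgL_congr hlin _ _ _ ?_; funext z; simp; ring)
               | (refine sgL_zero hlin _ _ ?_; funext z; simp; done)
               | (refine sgL_zero hlin _ _ ?_; funext z; simp; ring))
  · (simp only [Preadditive.comp_add, Preadditive.add_comp, Preadditive.comp_neg,
        Preadditive.neg_comp, Category.assoc, inl_fst', inl_snd', inr_fst', inr_snd', lift_fst,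
        lift_snd, lift_fst', lift_snd', inl_desc, inr_desc, inl_desc', inr_desc', inl_fst,
        inl_snd, inr_fst, inr_snd, comp_zero, zero_comp, add_zero, zero_add, Functor.map_neg,
        Functor.map_zero, nat_inl_fst, nat_inl_snd, nat_inr_fst, nat_inr_snd, nat_inl_fst',
        nat_inl_snd', nat_inr_fst', nat_inr_snd', map_sg', sg_map', Category.comp_id,
        Category.id_comp, neg_zero, neg_neg, app_eq];
     (try simp only [sg_eq hlin, ← map_neg, ← map_add]);
     first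
     | done
     | (refine sgL_congr hlin _ _ _ ?_; funext z; simp; done)
     | (refine sgL_congr hlin _ _ _ ?_; funext z; simp; ring)
     | (refine sgL_zero hlin _ _ ?_; funext z; simp; done)
     | (refine sgL_zero hlin _ _ ?_; funext z; simp; ring))

end hb

/-! ### vanishing -/

section van

variable {A : Type u} [Category.{v} A] [Abelian A] [Linear ℂ A] {τ : ℂ} (E : TA τ A)

/-- the hypothesis on common zeros -/
def Van : Prop := ∀ (M : A) (a b : Gam) (f g : ℂ → ℂ) (hf : f ∈ V τ (a - 0))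
  (hg : g ∈ V τ (b - 0)), (∀ z, f z ≠ 0 ∨ g z ≠ 0) → (E.Φ.map (gm f hf)).app M = 0 →
    (E.Φ.map (gm g hg)).app M = 0 → IsZero M

variable {E} [hadd : ∀ a, (E.Φ.obj a).Additive] [hL : ∀ a, PreservesFiniteLimits (E.Φ.obj a)]
  [hR : ∀ a, PreservesFiniteColimits (E.Φ.obj a)]

theorem kill_image {α β : Gam} {p q : ℂ → ℂ} (hp : p ∈ V τ (α - 0)) (hq : q ∈ V τ (β - 0)) (M : A)
    {c : Gam} (hpq : q * p ∈ V τ (c - 0)) (hc : α + β = c)
    (h : (E.Φ.map (gm (q * p) hpq)).app M = 0) :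
    (E.Φ.map (gm q hq)).app (image ((E.Φ.map (gm p hp)).app M)) = 0 := by
  apply kill_epi (E.Φ.map (gm q hq)) (factorThruImage ((E.Φ.map (gm p hp)).app M))
  rw [← cancel_mono ((E.Φ.obj ⟨β⟩).map (image.ι ((E.Φ.map (gm p hp)).app M))), zero_comp,
    Category.assoc, ← Functor.map_comp, image.fac, ← NatTrans.naturality, app_eq, map_sg']
  unfold sg
  have h2 : ∀ k, ac E (a := 0 + 0) (b := α + β) (q * p) k M = 0 := fun k =>
    ac_shift E (a := 0) (b := c) (by rw [hc]; abel) _ hpq k M h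
  rw [h2, zero_comp, comp_zero]

theorem zero_of_image {α : Gam} {p : ℂ → ℂ} (hp : p ∈ V τ (α - 0)) (M : A)
    (h : IsZero (image ((E.Φ.map (gm p hp)).app M))) : (E.Φ.map (gm p hp)).app M = 0 := by
  rw [← image.fac ((E.Φ.map (gm p hp)).app M), h.eq_of_tgt (factorThruImage _) 0, zero_comp]

variable {γ₁ γ₂ δ : Gam} {u₁ u₂ w₁ w₂ : ℂ → ℂ}
    (hu₁ : u₁ ∈ V τ γ₁) (hu₂ : u₂ ∈ V τ γ₂) (hw₁ : w₁ ∈ V τ (δ - γ₂)) (hw₂ : w₂ ∈ V τ (δ - γ₁))
    (hz : ∀ z, u₁ z * u₂ z ≠ 0 ∨ u₁ z * w₂ z ≠ 0 ∨ u₂ z * w₁ z ≠ 0)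

include hu₁ hu₂ hw₁ hw₂ hz in
theorem zero_of_three (hV : Van E) (M : A) (hp1 : u₂ * w₁ ∈ V τ (δ - 0))
    (hp2 : u₁ * w₂ ∈ V τ (δ - 0)) (hp3 : u₁ * u₂ ∈ V τ (γ₁ + γ₂ - 0))
    (h1 : (E.Φ.map (gm (u₂ * w₁) hp1)).app M = 0) (h2 : (E.Φ.map (gm (u₁ * w₂) hp2)).app M = 0)
    (h3 : (E.Φ.map (gm (u₁ * u₂) hp3)).app M = 0) : IsZero M := by
  have hu₁' : u₁ ∈ V τ (γ₁ - 0) := by rwa [sub_zero]
  have hu₂' : u₂ ∈ V τ (γ₂ - 0) := by rwa [sub_zero]
  have hw₁' : w₁ ∈ V τ (δ - γ₂ - 0) := by rwa [sub_zero]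
  have hw₂' : w₂ ∈ V τ (δ - γ₁ - 0) := by rwa [sub_zero]
  have cm : ∀ (p q : ℂ → ℂ) (c : Gam) (hpq : p * q ∈ V τ (c - 0)) (hqp : q * p ∈ V τ (c - 0)),
      (E.Φ.map (gm (p * q) hpq)).app M = 0 → (E.Φ.map (gm (q * p) hqp)).app M = 0 := by
    intro p q c hpq hqp h
    have e : gm (τ := τ) (q * p) hqp = gm (p * q) hpq := Subtype.ext (mul_comm _ _)
    rw [e, h]
  have e1 : (E.Φ.map (gm u₁ hu₁')).app M = 0 := by
    apply zero_of_image
    refine hV _ γ₂ (δ - γ₁) u₂ w₂ hu₂' hw₂' ?_ ?_ ?_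
    · intro z
      rcases hz z with h | h | h
      · exact Or.inl (right_ne_zero_of_mul h)
      · exact Or.inr (right_ne_zero_of_mul h)
      · exact Or.inl (left_ne_zero_of_mul h)
    · have h4 : u₂ * u₁ ∈ V τ (γ₁ + γ₂ - 0) := by rwa [mul_comm]
      exact kill_image hu₁' hu₂' M h4 rfl (cm _ _ _ hp3 h4 h3)
    · have h4 : w₂ * u₁ ∈ V τ (δ - 0) := by rwa [mul_comm]
      exact kill_image hu₁' hw₂' M h4 (by abel) (cm _ _ _ hp2 h4 h2)
  have e2 : (E.Φ.map (gm u₂ hu₂')).app M = 0 := by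
    apply zero_of_image
    refine hV _ γ₁ (δ - γ₂) u₁ w₁ hu₁' hw₁' ?_ ?_ ?_
    · intro z
      rcases hz z with h | h | h
      · exact Or.inl (left_ne_zero_of_mul h)
      · exact Or.inl (left_ne_zero_of_mul h)
      · exact Or.inr (right_ne_zero_of_mul h)
    · exact kill_image hu₂' hu₁' M hp3 (by abel) h3
    · have h4 : w₁ * u₂ ∈ V τ (δ - 0) := by rwa [mul_comm]
      exact kill_image hu₂' hw₁' M h4 (by abel) (cm _ _ _ hp1 h4 h1)
  refine hV M γ₁ γ₂ u₁ u₂ hu₁' hu₂' ?_ e1 e2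
  intro z
  rcases hz z with h | h | h
  · exact Or.inl (left_ne_zero_of_mul h)
  · exact Or.inl (left_ne_zero_of_mul h)
  · exact Or.inr (left_ne_zero_of_mul h)

theorem mono_of_zero {X Y : A} (f : X ⟶ Y) (h : IsZero (kernel f)) : Mono f :=
  Preadditive.mono_of_kernel_zero (h.eq_of_src _ _)

theorem epi_of_zero {X Y : A} (f : X ⟶ Y) (h : IsZero (cokernel f)) : Epi f :=
  Preadditive.epi_of_cokernel_zero (h.eq_of_tgt _ _)

/-- a complex with three contractions -/
theorem short_of_ctr (P : A → Prop) (hP : ∀ M, P M → IsZero M) {X₁ X₂ X₃ : A} (d₁ : X₁ ⟶ X₂)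
    (d₂ : X₂ ⟶ X₃) (e : d₁ ≫ d₂ = 0) (h1 : P (kernel d₁)) (h2 : P (ShortComplex.mk d₁ d₂ e).homology)
    (h3 : P (cokernel d₂)) : (ShortComplex.mk d₁ d₂ e).ShortExact where
  exact := (ShortComplex.exact_iff_isZero_homology _).2 (hP _ h2)
  mono_f := mono_of_zero _ (hP _ h1)
  epi_g := epi_of_zero _ (hP _ h3)

theorem kill_of_ctr {X₁ X₂ X₃ : A} {d₁ : X₁ ⟶ X₂} {d₂ : X₂ ⟶ X₃} {γ : Gam} {p : ℂ → ℂ}
    {hp : p ∈ V τ (γ - 0)} (h : Ctr E d₁ d₂ p hp) (e : d₁ ≫ d₂ = 0) :
    (E.Φ.map (gm p hp)).app (kernel d₁) = 0 ∧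
    (E.Φ.map (gm p hp)).app (ShortComplex.mk d₁ d₂ e).homology = 0 ∧
    (E.Φ.map (gm p hp)).app (cokernel d₂) = 0 := by
  obtain ⟨s, t, h1, h2, h3⟩ := h
  exact ⟨kill_ker _ d₁ s h1, kill_homology _ (ShortComplex.mk d₁ d₂ e) s t h2,
    kill_coker _ d₂ t h3⟩

theorem app_zero {x γ c : Gam} (f : ℂ → ℂ) (hf : f ∈ V τ (γ - 0)) (hf' : f ∈ V τ (c - 0))
    (hc : γ = c) (G : A) (h : (E.Φ.map (gm f hf')).app G = 0) :
    (E.Φ.map (gm f hf)).app ((E.Φ.obj ⟨x⟩).obj G) = 0 := by
  rw [app_eq]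
  unfold sg
  have h2 : ∀ k, ac E (a := x + 0) (b := x + γ) f k G = 0 := fun k =>
    ac_shift E (a := 0) (b := c) (by rw [hc]; abel) _ hf' k G h
  rw [h2, zero_comp, comp_zero]

end van

/-- PIECE KEX -/
theorem p_KEX : S_KEX.{v, u} := by
  intro A _ _ _ τ E hlin hL hR hV G
  have hadd : ∀ a, (E.Φ.obj a).Additive := fun a => by
    have := hL a
    exact Functor.additive_of_preserves_binary_products _
  have hl : Lin E := hlin
  refine ⟨?_, ?_, ?_⟩
  · intro a γ δ f g hf hg hz hf1 hg1 hf2 hg2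
    have hf0 : f ∈ V τ (γ - 0) := by rwa [sub_zero]
    have hg0 : g ∈ V τ (δ - 0) := by rwa [sub_zero]
    have e : biprod.lift (ac E f hf1 G) (ac E g hg1 G) ≫
        biprod.desc (ac E g hg2 G) (-(ac E f hf2 G)) = 0 := by
      have hp : g * f ∈ V τ (a + γ + δ - a) := by
        rw [show a + γ + δ - a = δ + γ by abel]; exact V_mul hg hf
      rw [biprod.lift_desc, ac_ac E f g (g * f) hf1 hg2 hp rfl, Preadditive.comp_neg,
        ac_ac E g f (g * f) hg1 hf2 hp (mul_comm _ _), add_neg_cancel]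
    refine ⟨e, ?_⟩
    have c1 : Ctr E (biprod.lift (ac E f hf1 G) (ac E g hg1 G))
        (biprod.desc (ac E g hg2 G) (-(ac E f hf2 G))) f hf0 :=
      kos_f hf1 hg1 hf2 hg2 hf0 G hl
    have c2 : Ctr E (biprod.lift (ac E f hf1 G) (ac E g hg1 G))
        (biprod.desc (ac E g hg2 G) (-(ac E f hf2 G))) g hg0 :=
      kos_g hf1 hg1 hf2 hg2 hg0 G hl
    obtain ⟨x1, x2, x3⟩ := kill_of_ctr c1 e
    obtain ⟨y1, y2, y3⟩ := kill_of_ctr c2 e
    exact short_of_ctr (fun M => (E.Φ.map (gm f hf0)).app M = 0 ∧ (E.Φ.map (gm g hg0)).app M = 0)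
      (fun M hM => hV M γ δ f g hf0 hg0 hz hM.1 hM.2) _ _ e ⟨x1, y1⟩ ⟨x2, y2⟩ ⟨x3, y3⟩
  · intro a γ₁ γ₂ δ u₁ u₂ w₁ w₂ hu₁ hu₂ hw₁ hw₂ hz h1 h2 h3 k1 k2 k3 k4
    have e : hd1 E k1 k2 k3 k4 G ≫ hd2 E h1 h2 h3 G = 0 := by
      have hq : u₁ * (u₂ * w₁) ∈ V τ (a + δ - (a - γ₁)) := by
        have := V_mul hu₁ h1
        rwa [show γ₁ + (a + δ - a) = a + δ - (a - γ₁) by abel] at this
      have hr : u₂ * (u₁ * w₂) ∈ V τ (a + δ - (a - γ₂)) := by
        have := V_mul hu₂ h2
        rwa [show γ₂ + (a + δ - a) = a + δ - (a - γ₂) by abel] at this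
      apply biprod.hom_ext'
      · rw [comp_zero, biprod.inl_desc_assoc, biprod.lift_desc, biprod.lift_desc, zero_comp,
          add_zero, Preadditive.neg_comp, ac_ac E u₁ (u₂ * w₁) (u₁ * (u₂ * w₁)) k1 h1 hq
            (mul_comm _ _), ac_ac E w₁ (u₁ * u₂) (u₁ * (u₂ * w₁)) k3 h3 hq (mul_assoc _ _ _),
          add_neg_cancel]
      · rw [comp_zero, biprod.inr_desc_assoc, biprod.lift_desc, biprod.lift_desc, zero_comp,
          zero_add, Preadditive.neg_comp, ac_ac E u₂ (u₁ * w₂) (u₂ * (u₁ * w₂)) k2 h2 hr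
            (mul_comm _ _), ac_ac E w₂ (u₁ * u₂) (u₂ * (u₁ * w₂)) k4 h3 hr (by ring),
          add_neg_cancel]
    refine ⟨e, ?_⟩
    have hp1 : u₂ * w₁ ∈ V τ (δ - 0) := by rwa [show δ - 0 = a + δ - a by abel]
    have hp2 : u₁ * w₂ ∈ V τ (δ - 0) := by rwa [show δ - 0 = a + δ - a by abel]
    have hp3 : u₁ * u₂ ∈ V τ (γ₁ + γ₂ - 0) := by rw [sub_zero]; exact V_mul hu₁ hu₂
    obtain ⟨x1, x2, x3⟩ := kill_of_ctr
      (hb_p1 hu₁ hu₂ hw₁ hw₂ h1 h2 h3 k1 k2 k3 k4 G hl hp1) e
    obtain ⟨y1, y2, y3⟩ := kill_of_ctr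
      (hb_p2 hu₁ hu₂ hw₁ hw₂ h1 h2 h3 k1 k2 k3 k4 G hl hp2) e
    obtain ⟨z1, z2, z3⟩ := kill_of_ctr
      (hb_p3 hu₁ hu₂ hw₁ hw₂ h1 h2 h3 k1 k2 k3 k4 G hl hp3) e
    exact short_of_ctr (fun M => (E.Φ.map (gm _ hp1)).app M = 0 ∧
        (E.Φ.map (gm _ hp2)).app M = 0 ∧ (E.Φ.map (gm _ hp3)).app M = 0)
      (fun M hM => zero_of_three hu₁ hu₂ hw₁ hw₂ hz hV M hp1 hp2 hp3 hM.1 hM.2.1 hM.2.2) _ _ e
      ⟨x1, y1, z1⟩ ⟨x2, y2, z2⟩ ⟨x3, y3, z3⟩
  · intro a b f g hf hg hz h
    have m1 : (1 : ℂ → ℂ) ∈ V τ (0 + b - (b + 0)) := by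
      rw [show 0 + b - (b + 0) = 0 by abel]; exact V_one
    have hk : IsZero (kernel (ac E g hg G)) := by
      refine hV _ a b f g hf hg hz ?_ ?_
      · apply kill_mono _ (kernel.ι (ac E g hg G))
        rw [app_zero f hf hf rfl G h, comp_zero]
      · refine kill_ker _ (ac E g hg G) (sg E 1 m1 G) ?_
        (simp only [Preadditive.comp_add, Preadditive.add_comp, Preadditive.comp_neg,
            Preadditive.neg_comp, Category.assoc, inl_fst', inl_snd', inr_fst', inr_snd',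
            lift_fst, lift_snd, lift_fst', lift_snd', inl_desc, inr_desc, inl_desc', inr_desc',
            inl_fst, inl_snd, inr_fst, inr_snd, comp_zero, zero_comp, add_zero, zero_add,
            Functor.map_neg, Functor.map_zero, nat_inl_fst, nat_inl_snd, nat_inr_fst, nat_inr_snd,
            nat_inl_fst', nat_inl_snd', nat_inr_fst', nat_inr_snd', map_sg', sg_map',
            Category.comp_id, Category.id_comp, neg_zero, neg_neg, app_eq];
         (try simp only [sg_eq hl, ← map_neg, ← map_add]);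
         first
         | done
         | (refine sgL_congr hl _ _ _ ?_; funext z; simp; done)
         | (refine sgL_congr hl _ _ _ ?_; funext z; simp; ring)
         | (refine sgL_zero hl _ _ ?_; funext z; simp; done)
         | (refine sgL_zero hl _ _ ?_; funext z; simp; ring))
    have hc : IsZero (cokernel (ac E g hg G)) := by
      refine hV _ a b f g hf hg hz ?_ ?_
      · apply kill_epi _ (cokernel.π (ac E g hg G))
        rw [app_zero f hf hf rfl G h, zero_comp]
      · refine kill_coker _ (ac E g hg G) (sg E 1 m1 G) ?_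
        (simp only [Preadditive.comp_add, Preadditive.add_comp, Preadditive.comp_neg,
            Preadditive.neg_comp, Category.assoc, inl_fst', inl_snd', inr_fst', inr_snd',
            lift_fst, lift_snd, lift_fst', lift_snd', inl_desc, inr_desc, inl_desc', inr_desc',
            inl_fst, inl_snd, inr_fst, inr_snd, comp_zero, zero_comp, add_zero, zero_add,
            Functor.map_neg, Functor.map_zero, nat_inl_fst, nat_inl_snd, nat_inr_fst, nat_inr_snd,
            nat_inl_fst', nat_inl_snd', nat_inr_fst', nat_inr_snd', map_sg', sg_map',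
            Category.comp_id, Category.id_comp, neg_zero, neg_neg, app_eq];
         (try simp only [sg_eq hl, ← map_neg, ← map_add]);
         first
         | done
         | (refine sgL_congr hl _ _ _ ?_; funext z; simp; done)
         | (refine sgL_congr hl _ _ _ ?_; funext z; simp; ring)
         | (refine sgL_zero hl _ _ ?_; funext z; simp; done)
         | (refine sgL_zero hl _ _ ?_; funext z; simp; ring))
    have := mono_of_zero _ hk
    have := epi_of_zero _ hc
    exact isIso_of_mono_of_epi _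

end Run7.h639.BE.KEX
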