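import Pool.Agent.Run7.h354.BE.Stm2

/-!
# Piece KEX: exactness of the Koszul and Hilbert-Burch complexes
-/

set_option autoImplicit false
set_option linter.unusedSectionVars false

open CategoryTheory CategoryTheory.Limits Complex ZeroObject

namespace Run7.h639.BE.KEX

open Run7.h354.BE

universe v u

/-! ### natural transformations and homology -/

section nat

variable {A : Type u} [Category.{v} A] [Abelian A] {F F' : A ⥤ A} [F.Additive] [F'.Additive]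
  [PreservesFiniteLimits F] [PreservesFiniteColimits F] [PreservesFiniteLimits F']
  [PreservesFiniteColimits F'] (n : F ⟶ F')

omit [F'.Additive] [F.Additive] [PreservesFiniteLimits F] [PreservesFiniteColimits F]
  [PreservesFiniteColimits F'] in
theorem kill_mono {X Y : A} (i : X ⟶ Y) [Mono i] (h : F.map i ≫ n.app Y = 0) : n.app X = 0 := by
  rw [← cancel_mono (F'.map i), zero_comp, ← n.naturality, h]

omit [F'.Additive] [F.Additive] [PreservesFiniteLimits F] [PreservesFiniteLimits F']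
  [PreservesFiniteColimits F'] in
theorem kill_epi {X Y : A} (p : X ⟶ Y) [Epi p] (h : n.app X ≫ F'.map p = 0) : n.app Y = 0 := by
  rw [← cancel_epi (F.map p), comp_zero, n.naturality, h]

omit [F'.Additive] [PreservesFiniteLimits F] [PreservesFiniteColimits F]
  [PreservesFiniteColimits F'] in
theorem kill_ker {X Y : A} (f : X ⟶ Y) (s : F.obj Y ⟶ F'.obj X) (h : F.map f ≫ s = n.app X) :
    n.app (kernel f) = 0 := by
  apply kill_mono n (kernel.ι f)
  rw [← h, ← F.map_comp_assoc, kernel.condition, F.map_zero, zero_comp]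

omit [F.Additive] [PreservesFiniteLimits F] [PreservesFiniteLimits F']
  [PreservesFiniteColimits F'] in
theorem kill_coker {X Y : A} (f : X ⟶ Y) (s : F.obj Y ⟶ F'.obj X) (h : s ≫ F'.map f = n.app Y) :
    n.app (cokernel f) = 0 := by
  apply kill_epi n (cokernel.π f)
  rw [← h, Category.assoc, ← F'.map_comp, cokernel.condition, F'.map_zero, comp_zero]

omit [PreservesFiniteLimits F] [PreservesFiniteColimits F'] in
theorem kill_homology (S : ShortComplex A) (s : F.obj S.X₂ ⟶ F'.obj S.X₁)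
    (t : F.obj S.X₃ ⟶ F'.obj S.X₂) (h : s ≫ F'.map S.f + F.map S.g ≫ t = n.app S.X₂) :
    n.app S.homology = 0 := by
  apply kill_epi n S.homologyπ
  have h1 : n.app S.cycles = F.map S.iCycles ≫ s ≫ F'.map S.toCycles := by
    rw [← cancel_mono (F'.map S.iCycles), ← n.naturality, ← h]
    rw [Category.assoc, Category.assoc, ← F'.map_comp, S.toCycles_i, Preadditive.comp_add,
      ← F.map_comp_assoc, S.iCycles_g, F.map_zero, zero_comp, add_zero]
  rw [h1, Category.assoc, Category.assoc, ← F'.map_comp, S.toCycles_comp_homologyπ, F'.map_zero,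
    comp_zero, comp_zero]

end nat

/-! ### the action -/

section act

variable {A : Type u} [Category.{v} A] [Abelian A] [Linear ℂ A] {τ : ℂ} (E : TA τ A)

/-- the action of a theta function -/
abbrev ac {a b : Gam} (f : ℂ → ℂ) (hf : f ∈ V τ (b - a)) (G : A) :
    (E.Φ.obj ⟨a⟩).obj G ⟶ (E.Φ.obj ⟨b⟩).obj G := (E.Φ.map (gm f hf)).app G

theorem ac_ac {a b c : Gam} (f g k : ℂ → ℂ) (hf : f ∈ V τ (b - a)) (hg : g ∈ V τ (c - b))
    (hk : k ∈ V τ (c - a)) (h : g * f = k) (G : A) :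
    ac E f hf G ≫ ac E g hg G = ac E k hk G := by
  subst h
  show (E.Φ.map (gm f hf)).app G ≫ (E.Φ.map (gm g hg)).app G = _
  rw [← NatTrans.comp_app, ← E.Φ.map_comp]
  rfl

/-- linearity -/
def Lin : Prop := ∀ {a b : Gr τ} (r : ℂ) (f g : a ⟶ b),
  E.Φ.map (r • f + g) = r • E.Φ.map f + E.Φ.map g

variable {E}

theorem ac_zero (hlin : Lin E) {a b : Gam} (h : (0 : ℂ → ℂ) ∈ V τ (b - a)) (G : A) :
    ac E 0 h G = 0 := by
  have h1 := hlin (1 : ℂ) (0 : (⟨a⟩ : Gr τ) ⟶ ⟨b⟩) 0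
  rw [one_smul, one_smul, add_zero] at h1
  have h2 : E.Φ.map (0 : (⟨a⟩ : Gr τ) ⟶ ⟨b⟩) = 0 := left_eq_add.1 h1
  show (E.Φ.map (gm 0 h)).app G = 0
  have h3 : gm (τ := τ) 0 h = 0 := rfl
  rw [h3, h2]
  rfl

theorem ac_add (hlin : Lin E) {a b : Gam} (f g k : ℂ → ℂ) (hf : f ∈ V τ (b - a))
    (hg : g ∈ V τ (b - a)) (hk : k ∈ V τ (b - a)) (h : f + g = k) (G : A) :
    ac E f hf G + ac E g hg G = ac E k hk G := by
  subst h
  have h1 := hlin (1 : ℂ) (gm f hf) (gm g hg)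
  rw [one_smul, one_smul] at h1
  show (E.Φ.map (gm f hf)).app G + (E.Φ.map (gm g hg)).app G = (E.Φ.map (gm (f + g) hk)).app G
  have h3 : gm (τ := τ) (f + g) hk = gm f hf + gm g hg := rfl
  rw [h3, h1]
  rfl

theorem ac_neg (hlin : Lin E) {a b : Gam} (f k : ℂ → ℂ) (hf : f ∈ V τ (b - a))
    (hk : k ∈ V τ (b - a)) (h : -f = k) (G : A) : -ac E f hf G = ac E k hk G := by
  rw [neg_eq_iff_add_eq_zero]
  rw [ac_add hlin f k 0 hf hk (zero_mem _) (by rw [← h, add_neg_cancel]), ac_zero hlin]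

variable (E)

theorem ac_congr {a b a' b' : Gam} (ha : a = a') (hb : b = b') (f : ℂ → ℂ)
    (hf : f ∈ V τ (b - a)) (hf' : f ∈ V τ (b' - a')) (G : A) (h : ac E f hf G = 0) :
    ac E f hf' G = 0 := by
  subst ha
  subst hb
  exact h

theorem ac_shift [∀ a, (E.Φ.obj a).Additive] {a b a' b' : Gam} (hab : b - a = b' - a')
    (f : ℂ → ℂ) (hf : f ∈ V τ (b - a)) (hf' : f ∈ V τ (b' - a')) (G : A)
    (h : ac E f hf G = 0) : ac E f hf' G = 0 := by
  have e1 : a + (a' - a) = a' := by abel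
  have e2 : b + (a' - a) = b' := by
    have : b' = b - a + a' := by rw [hab]; abel
    rw [this]; abel
  have hf2 : f ∈ V τ (b + (a' - a) - (a + (a' - a))) := by
    rwa [add_sub_add_right_eq_sub]
  have h1 := E.comp_nat1 a b (a' - a) f hf hf2 G
  have h2 : (E.Φ.obj ⟨a' - a⟩).map ((E.Φ.map (gm f hf)).app G) = 0 := by
    rw [show (E.Φ.map (gm f hf)).app G = 0 from h, Functor.map_zero]
  rw [h2, zero_comp] at h1
  have h3 : ac E f hf2 G = 0 := by
    rw [← cancel_epi ((E.comp a (a' - a)).hom.app G), comp_zero]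
    exact h1.symm
  exact ac_congr E e1 e2 f hf2 hf' G h3

/-- the basic homotopy -/
noncomputable def sg {x y γ : Gam} (h : ℂ → ℂ) (hh : h ∈ V τ (y + γ - (x + 0))) (G : A) :
    (E.Φ.obj ⟨0⟩).obj ((E.Φ.obj ⟨x⟩).obj G) ⟶ (E.Φ.obj ⟨γ⟩).obj ((E.Φ.obj ⟨y⟩).obj G) :=
  (E.comp x 0).hom.app G ≫ ac E h hh G ≫ (E.comp y γ).inv.app G

theorem ac_eq_sg {x γ : Gam} (f : ℂ → ℂ) (hf : f ∈ V τ (γ - 0)) (hf' : f ∈ V τ (x + γ - (x + 0)))
    (G : A) : ac E f hf ((E.Φ.obj ⟨x⟩).obj G) = sg E f hf' G := by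
  unfold sg
  have h := E.comp_nat x 0 γ f hf hf' G
  have h2 := reassoc_of% h
  rw [← h2]
  simp

theorem map_sg {x x' y γ : Gam} (h k m : ℂ → ℂ) (hh : h ∈ V τ (x' - x))
    (hk : k ∈ V τ (y + γ - (x' + 0))) (hm : m ∈ V τ (y + γ - (x + 0))) (e : k * h = m) (G : A) :
    (E.Φ.obj ⟨0⟩).map (ac E h hh G) ≫ sg E k hk G = sg E m hm G := by
  unfold sg
  have hh' : h ∈ V τ (x' + 0 - (x + 0)) := by rwa [add_sub_add_right_eq_sub]
  have h1 := E.comp_nat1 x x' 0 h hh hh' G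
  rw [← Category.assoc, h1, Category.assoc]
  congr 1
  rw [← Category.assoc, ac_ac E h k m hh' hk hm e G]

theorem sg_map {x y y' γ : Gam} (h k m : ℂ → ℂ) (hh : h ∈ V τ (y + γ - (x + 0)))
    (hk : k ∈ V τ (y' - y)) (hm : m ∈ V τ (y' + γ - (x + 0))) (e : k * h = m) (G : A) :
    sg E h hh G ≫ (E.Φ.obj ⟨γ⟩).map (ac E k hk G) = sg E m hm G := by
  unfold sg
  have hk' : k ∈ V τ (y' + γ - (y + γ)) := by rwa [add_sub_add_right_eq_sub]
  have h1 := E.comp_nat1 y y' γ k hk hk' G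
  have h2 : (E.comp y γ).inv.app G ≫ (E.Φ.obj ⟨γ⟩).map ((E.Φ.map (gm k hk)).app G) =
      (E.Φ.map (gm k hk')).app G ≫ (E.comp y' γ).inv.app G := by
    rw [← cancel_mono ((E.comp y' γ).hom.app G), Category.assoc, h1, Category.assoc]
    simp
  rw [Category.assoc, Category.assoc, h2]
  congr 1
  rw [← Category.assoc, ac_ac E h k m hh hk' hm e G]

variable {E}

theorem sg_add (hlin : Lin E) {x y γ : Gam} (f g k : ℂ → ℂ) (hf : f ∈ V τ (y + γ - (x + 0)))
    (hg : g ∈ V τ (y + γ - (x + 0))) (hk : k ∈ V τ (y + γ - (x + 0))) (h : f + g = k) (G : A) :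
    sg E f hf G + sg E g hg G = sg E k hk G := by
  unfold sg
  rw [← Preadditive.comp_add, ← Preadditive.add_comp, ac_add hlin f g k hf hg hk h G]

theorem sg_neg (hlin : Lin E) {x y γ : Gam} (f k : ℂ → ℂ) (hf : f ∈ V τ (y + γ - (x + 0)))
    (hk : k ∈ V τ (y + γ - (x + 0))) (h : -f = k) (G : A) :
    -sg E f hf G = sg E k hk G := by
  unfold sg
  rw [← Preadditive.comp_neg, ← Preadditive.neg_comp, ac_neg hlin f k hf hk h G]

theorem sg_zero (hlin : Lin E) {x y γ : Gam} (h : (0 : ℂ → ℂ) ∈ V τ (y + γ - (x + 0))) (G : A) :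
    sg E 0 h G = 0 := by
  unfold sg
  rw [ac_zero hlin, zero_comp, comp_zero]

end act

/-! ### matrices -/

section mat

variable {A : Type u} [Category.{v} A] [Abelian A] (F : A ⥤ A) [F.Additive]

theorem ext_from {X Y Z : A} {φ ψ : F.obj (X ⊞ Y) ⟶ Z}
    (h1 : F.map biprod.inl ≫ φ = F.map biprod.inl ≫ ψ)
    (h2 : F.map biprod.inr ≫ φ = F.map biprod.inr ≫ ψ) : φ = ψ := by
  have e : 𝟙 (F.obj (X ⊞ Y)) = F.map biprod.fst ≫ F.map biprod.inl +
      F.map biprod.snd ≫ F.map biprod.inr := by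
    rw [← F.map_comp, ← F.map_comp, ← F.map_add, biprod.total, F.map_id]
  rw [← Category.id_comp φ, ← Category.id_comp ψ, e, Preadditive.add_comp, Preadditive.add_comp,
    Category.assoc, Category.assoc, Category.assoc, Category.assoc, h1, h2]

theorem ext_to {X Y Z : A} {φ ψ : Z ⟶ F.obj (X ⊞ Y)}
    (h1 : φ ≫ F.map biprod.fst = ψ ≫ F.map biprod.fst)
    (h2 : φ ≫ F.map biprod.snd = ψ ≫ F.map biprod.snd) : φ = ψ := by
  have e : 𝟙 (F.obj (X ⊞ Y)) = F.map biprod.fst ≫ F.map biprod.inl +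
      F.map biprod.snd ≫ F.map biprod.inr := by
    rw [← F.map_comp, ← F.map_comp, ← F.map_add, biprod.total, F.map_id]
  rw [← Category.comp_id φ, ← Category.comp_id ψ, e, Preadditive.comp_add, Preadditive.comp_add,
    reassoc_of% h1, reassoc_of% h2]

variable {F}
variable {X Y Z : A}

@[simp] theorem inl_fst : F.map (biprod.inl : X ⟶ X ⊞ Y) ≫ F.map (biprod.fst : X ⊞ Y ⟶ X) = 𝟙 _ := by
  rw [← F.map_comp, biprod.inl_fst, F.map_id]

@[simp] theorem inl_snd : F.map (biprod.inl : X ⟶ X ⊞ Y) ≫ F.map (biprod.snd : X ⊞ Y ⟶ Y) = 0 := by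
  rw [← F.map_comp, biprod.inl_snd, F.map_zero]

@[simp] theorem inr_fst : F.map (biprod.inr : Y ⟶ X ⊞ Y) ≫ F.map (biprod.fst : X ⊞ Y ⟶ X) = 0 := by
  rw [← F.map_comp, biprod.inr_fst, F.map_zero]

@[simp] theorem inr_snd : F.map (biprod.inr : Y ⟶ X ⊞ Y) ≫ F.map (biprod.snd : X ⊞ Y ⟶ Y) = 𝟙 _ := by
  rw [← F.map_comp, biprod.inr_snd, F.map_id]

@[simp] theorem inl_fst' (k : F.obj X ⟶ Z) :
    F.map (biprod.inl : X ⟶ X ⊞ Y) ≫ F.map (biprod.fst : X ⊞ Y ⟶ X) ≫ k = k := by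
  rw [← Category.assoc, inl_fst, Category.id_comp]

@[simp] theorem inl_snd' (k : F.obj Y ⟶ Z) :
    F.map (biprod.inl : X ⟶ X ⊞ Y) ≫ F.map (biprod.snd : X ⊞ Y ⟶ Y) ≫ k = 0 := by
  rw [← Category.assoc, inl_snd, zero_comp]

@[simp] theorem inr_fst' (k : F.obj X ⟶ Z) :
    F.map (biprod.inr : Y ⟶ X ⊞ Y) ≫ F.map (biprod.fst : X ⊞ Y ⟶ X) ≫ k = 0 := by
  rw [← Category.assoc, inr_fst, zero_comp]

@[simp] theorem inr_snd' (k : F.obj Y ⟶ Z) :
    F.map (biprod.inr : Y ⟶ X ⊞ Y) ≫ F.map (biprod.snd : X ⊞ Y ⟶ Y) ≫ k = k := by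
  rw [← Category.assoc, inr_snd, Category.id_comp]

@[simp] theorem lift_fst (f : Z ⟶ X) (g : Z ⟶ Y) :
    F.map (biprod.lift f g) ≫ F.map biprod.fst = F.map f := by
  rw [← F.map_comp, biprod.lift_fst]

@[simp] theorem lift_snd (f : Z ⟶ X) (g : Z ⟶ Y) :
    F.map (biprod.lift f g) ≫ F.map biprod.snd = F.map g := by
  rw [← F.map_comp, biprod.lift_snd]

@[simp] theorem inl_desc (f : X ⟶ Z) (g : Y ⟶ Z) :
    F.map biprod.inl ≫ F.map (biprod.desc f g) = F.map f := by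
  rw [← F.map_comp, biprod.inl_desc]

@[simp] theorem inr_desc (f : X ⟶ Z) (g : Y ⟶ Z) :
    F.map biprod.inr ≫ F.map (biprod.desc f g) = F.map g := by
  rw [← F.map_comp, biprod.inr_desc]

@[simp] theorem inl_desc' {W : A} (f : X ⟶ Z) (g : Y ⟶ Z) (k : F.obj Z ⟶ W) :
    F.map biprod.inl ≫ F.map (biprod.desc f g) ≫ k = F.map f ≫ k := by
  rw [← Category.assoc, inl_desc]

@[simp] theorem inr_desc' {W : A} (f : X ⟶ Z) (g : Y ⟶ Z) (k : F.obj Z ⟶ W) :
    F.map biprod.inr ≫ F.map (biprod.desc f g) ≫ k = F.map g ≫ k := by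
  rw [← Category.assoc, inr_desc]

@[simp] theorem lift_fst' {W : A} (f : Z ⟶ X) (g : Z ⟶ Y) (k : F.obj X ⟶ W) :
    F.map (biprod.lift f g) ≫ F.map biprod.fst ≫ k = F.map f ≫ k := by
  rw [← Category.assoc, lift_fst]

@[simp] theorem lift_snd' {W : A} (f : Z ⟶ X) (g : Z ⟶ Y) (k : F.obj Y ⟶ W) :
    F.map (biprod.lift f g) ≫ F.map biprod.snd ≫ k = F.map g ≫ k := by
  rw [← Category.assoc, lift_snd]

variable {F' : A ⥤ A} [F'.Additive] (n : F ⟶ F')

@[simp] theorem nat_inl_fst : F.map biprod.inl ≫ n.app (X ⊞ Y) ≫ F'.map biprod.fst = n.app X := by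
  rw [← Category.assoc, n.naturality, Category.assoc, inl_fst, Category.comp_id]

@[simp] theorem nat_inl_snd : F.map biprod.inl ≫ n.app (X ⊞ Y) ≫ F'.map biprod.snd = 0 := by
  rw [← Category.assoc, n.naturality, Category.assoc, inl_snd, comp_zero]

@[simp] theorem nat_inr_fst : F.map biprod.inr ≫ n.app (X ⊞ Y) ≫ F'.map biprod.fst = 0 := by
  rw [← Category.assoc, n.naturality, Category.assoc, inr_fst, comp_zero]

@[simp] theorem nat_inr_snd : F.map biprod.inr ≫ n.app (X ⊞ Y) ≫ F'.map biprod.snd = n.app Y := by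
  rw [← Category.assoc, n.naturality, Category.assoc, inr_snd, Category.comp_id]

@[simp] theorem nat_inl_fst' {W : A} (k : F'.obj X ⟶ W) :
    F.map biprod.inl ≫ n.app (X ⊞ Y) ≫ F'.map biprod.fst ≫ k = n.app X ≫ k := by
  rw [← Category.assoc, n.naturality, Category.assoc, inl_fst']

@[simp] theorem nat_inl_snd' {W : A} (k : F'.obj Y ⟶ W) :
    F.map biprod.inl ≫ n.app (X ⊞ Y) ≫ F'.map biprod.snd ≫ k = 0 := by
  rw [← Category.assoc, n.naturality, Category.assoc, inl_snd', comp_zero]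

@[simp] theorem nat_inr_fst' {W : A} (k : F'.obj X ⟶ W) :
    F.map biprod.inr ≫ n.app (X ⊞ Y) ≫ F'.map biprod.fst ≫ k = 0 := by
  rw [← Category.assoc, n.naturality, Category.assoc, inr_fst', comp_zero]

@[simp] theorem nat_inr_snd' {W : A} (k : F'.obj Y ⟶ W) :
    F.map biprod.inr ≫ n.app (X ⊞ Y) ≫ F'.map biprod.snd ≫ k = n.app Y ≫ k := by
  rw [← Category.assoc, n.naturality, Category.assoc, inr_snd']

end mat

/-! ### the Koszul complex -/

section koszul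

variable {A : Type u} [Category.{v} A] [Abelian A] [Linear ℂ A] {τ : ℂ} {E : TA τ A}
  [hadd : ∀ a, (E.Φ.obj a).Additive]

theorem map_sg' (E : TA τ A) {x x' y γ : Gam} (h k : ℂ → ℂ) (hh : h ∈ V τ (x' - x))
    (hk : k ∈ V τ (y + γ - (x' + 0))) (G : A) :
    (E.Φ.obj ⟨0⟩).map (ac E h hh G) ≫ sg E k hk G = sg E (k * h) (by
      have := V_mul hk hh
      rwa [show y + γ - (x' + 0) + (x' - x) = y + γ - (x + 0) by abel] at this) G :=
  map_sg E h k _ hh hk _ rfl G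

theorem sg_map' (E : TA τ A) {x y y' γ : Gam} (h k : ℂ → ℂ) (hh : h ∈ V τ (y + γ - (x + 0)))
    (hk : k ∈ V τ (y' - y)) (G : A) :
    sg E h hh G ≫ (E.Φ.obj ⟨γ⟩).map (ac E k hk G) = sg E (k * h) (by
      have := V_mul hk hh
      rwa [show y' - y + (y + γ - (x + 0)) = y' + γ - (x + 0) by abel] at this) G :=
  sg_map E h k _ hh hk _ rfl G

theorem app_eq (E : TA τ A) {x γ : Gam} (f : ℂ → ℂ) (hf : f ∈ V τ (γ - 0)) (G : A) :
    (E.Φ.map (gm f hf)).app ((E.Φ.obj ⟨x⟩).obj G) = sg E f (by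
      rwa [show γ - 0 = x + γ - (x + 0) by abel] at hf) G :=
  ac_eq_sg E f hf _ G

/-- `sg` as a linear map -/
noncomputable def sgL (hlin : Lin E) (x y γ : Gam) (G : A) : V τ (y + γ - (x + 0)) →+
    ((E.Φ.obj ⟨0⟩).obj ((E.Φ.obj ⟨x⟩).obj G) ⟶ (E.Φ.obj ⟨γ⟩).obj ((E.Φ.obj ⟨y⟩).obj G)) where
  toFun h := sg E h.1 h.2 G
  map_zero' := sg_zero hlin _ G
  map_add' h k := (sg_add hlin h.1 k.1 _ h.2 k.2 (h + k).2 rfl G).symm

theorem sg_eq (hlin : Lin E) {x y γ : Gam} (h : ℂ → ℂ) (hh : h ∈ V τ (y + γ - (x + 0))) (G : A) :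
    sg E h hh G = sgL hlin x y γ G ⟨h, hh⟩ := rfl

theorem sgL_congr (hlin : Lin E) {x y γ : Gam} (G : A) (h k : V τ (y + γ - (x + 0)))
    (e : h.1 = k.1) : sgL hlin x y γ G h = sgL hlin x y γ G k :=
  congrArg _ (Subtype.ext e)

theorem sgL_zero (hlin : Lin E) {x y γ : Gam} (G : A) (h : V τ (y + γ - (x + 0)))
    (e : h.1 = 0) : sgL hlin x y γ G h = 0 := by
  rw [show h = 0 from Subtype.ext e, map_zero]

end koszul

end Run7.h639.BE.KEX
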